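import Pool.Agent.Helper45.CR.Low

/-!
# Statements of the rows of the lower half of `1 - s_n ~ (exp (1 + γ) / 2) n exp (-n)`

Grid cells as in `Helper45/CR/Low.lean`: `qv N c = 1 - (c + 1) / N`, `good n N`, `mass C N j`.
-/

set_option autoImplicit false

namespace Pool.Agent.Helper89.SH

open MeasureTheory Finset Filter Topology Pool.Agent.Helper43.Copula Pool.Agent.Helper3.Cop
  Pool.Agent.Helper45.CR

/-- product of the coordinates -/
noncomputable def VV {n : ℕ} (N : ℕ) (j : Fin n → ℕ) : ℝ := ∏ k, qv N (j k)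

/-- truncated sum of the inverses -/
noncomputable def aa {n : ℕ} (e : ℝ) (N : ℕ) (j : Fin n → ℕ) : ℝ := ∑ k, 1 / max (qv N (j k)) e

/-- the part of the sum over the coordinates in which `i` is below `j` -/
noncomputable def al {n : ℕ} (e : ℝ) (N : ℕ) (i j : Fin n → ℕ) : ℝ :=
  ∑ k, if qv N (i k) ≤ qv N (j k) then 1 / max (qv N (i k)) e else 0

/-- the cross term of the second moment -/
noncomputable def TT {n : ℕ} (C : (Fin n → ℝ) → ℝ) (e : ℝ) (N : ℕ) : ℝ :=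
  ∑ i ∈ good n N, ∑ j ∈ good n N, mass C N i * mass C N j *
    ((∏ k, min (qv N (i k)) (qv N (j k))) * (al e N i j * al e N j i) /
      (Real.sqrt (VV N i * aa e N i) * Real.sqrt (VV N j * aa e N j)))

/-- (L1) [helper24] second moment of the number of the sampled points above `x`: sets
`B (j, k)` = the slab of the cell `j` in the direction `k`, weights
`N * mass * (VV * aa) ^ (-1/2) * min 1 (qv / e)` in `Helper45.CR.second_moment` -/
def L1 : Prop :=
  ∀ (n : ℕ), 1 ≤ n → ∀ (C : (Fin n → ℝ) → ℝ), IsCopula n C → ∀ (N : ℕ), 1 ≤ N → ∀ (e : ℝ), 0 < e →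
    e ≤ 1 → (∑ j ∈ good n N, mass C N j * Real.sqrt (VV N j * aa e N j)) ^ 2 ≤
      (volume (posSet n C)).toReal * (1 + TT C e N)

/-- (L2) [helper89] the cross term -/
def L2 : Prop :=
  ∀ (n : ℕ), 1 ≤ n → ∀ (C : (Fin n → ℝ) → ℝ), IsCopula n C → ∀ (N : ℕ), 1 ≤ N → ∀ (e th : ℝ),
    0 < e → e ≤ 1 → th = 1 - 4 / (e ^ 2 * n) → 0 < th → 2 < n * th * e →
    TT C e N ≤ 1 / th / (1 - 4 / (n * th * e) ^ 2) + n / (e ^ 2 * N)

/-- (L3g) [helper6] the first moment on the grid, `N → ∞` (from `Helper6.SH.first`, the marginal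
sums and the Riemann sums of helper18) : with `L = log (1/e)`, `K = 2 L^2 + 4` -/
def L3 : Prop :=
  ∀ (L : ℝ), 1 ≤ L → ∀ (n : ℕ), 1 ≤ n → (2 * L ^ 2 + 4) / n ≤ 1 / 6 →
    ∀ (C : (Fin n → ℝ) → ℝ), IsCopula n C → ∀ (d : ℝ), 0 < d → ∀ᶠ N : ℕ in atTop,
      Real.sqrt n * Real.exp (-(n / 2)) *
        (Real.exp (((∫ y in Set.Ioi (0 : ℝ), min y L * (min y L - Real.log (min y L)) *
            Real.exp (-y)) - (2 * L ^ 2 + 4) * Real.exp (-L)) / 2) *
          (1 - Real.sqrt ((2 * L ^ 2 + 4) / n) -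
            4 * ((2 * L ^ 2 + 4) / n) * (L ^ 2 + 1 + (2 * L ^ 2 + 4) * Real.exp (-L)))) - d ≤
      ∑ j ∈ good n N, mass C N j * Real.sqrt (VV N j * aa (Real.exp (-L)) N j)

end Pool.Agent.Helper89.SH
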